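import Pool.Agent.helper3.SP.SpecPP

/-!
# Project sp, module PP12: gluing in probability
-/

set_option autoImplicit false

namespace TP

open DP MeasureTheory

theorem PP12 (hgen : Bgen_stmt) (hzero : Bzero_stmt) : PP12_stmt := by
  intro X Ep Em Up Um A Ap Am B B' hX hEp hEm hUp hUm mEp mEm mUp mUm hBB hAB hAB' hpB' hmB
  set Sp : Set V := {v | ∃ w ∈ B, br w = br v} with hSp
  set Sm : Set V := {v | ∃ w ∈ B', br w = br v} with hSm
  set S : Set V := {v | v ∉ Sp ∧ v ∉ Sm} with hS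
  have d1 : BDis S Sp := by
    rintro v ⟨hv, -⟩ w ⟨b, hb, hbw⟩ e
    exact hv ⟨b, hb, hbw.trans e.symm⟩
  have d2 : BDis S Sm := by
    rintro v ⟨-, hv⟩ w ⟨b, hb, hbw⟩ e
    exact hv ⟨b, hb, hbw.trans e.symm⟩
  have d3 : BDis Sp Sm := by
    rintro v ⟨b, hb, hbv⟩ w ⟨b', hb', hbw⟩ e
    exact hBB b hb b' hb' (hbv.trans (e.trans hbw.symm))
  have s1 : A ⊆ S := by
    intro v hv
    refine ⟨?_, ?_⟩
    · rintro ⟨b, hb, hbv⟩
      exact hAB v hv b hb hbv.symm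
    · rintro ⟨b, hb, hbv⟩
      exact hAB' v hv b hb hbv.symm
  have s2 : Ap ⊆ S ∪ Sp := by
    intro v hv
    by_cases h : v ∈ Sp
    · exact Or.inr h
    · refine Or.inl ⟨h, ?_⟩
      rintro ⟨b, hb, hbv⟩
      exact hpB' v hv b hb hbv.symm
  have s3 : Am ⊆ S ∪ Sm := by
    intro v hv
    by_cases h : v ∈ Sm
    · exact Or.inr h
    · refine Or.inl ⟨?_, h⟩
      rintro ⟨b, hb, hbv⟩
      exact hmB v hv b hb hbv.symm
  have s4 : B ⊆ Sp := fun v hv => ⟨v, hv, rfl⟩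
  have s5 : B' ⊆ Sm := fun v hv => ⟨v, hv, rfl⟩
  have key := hgen (fun _ => 0) X X Ep Em Up Um S Sp Sm d1 d2 d3 (hX.mono s1) (hX.mono s1)
    (hEp.mono s2) (hEm.mono s3) (hUp.mono s4) (hUm.mono s5) mEp mEm mUp mUm
  have hQ : ∀ F : Set (V → Bool), ∀ A : Set V, Loc F A → Q (fun _ => 0) F F = Pr F := by
    intro F A hF
    have := hzero (fun _ => 0) F F A hF hF (fun _ _ => rfl)
    rwa [Set.inter_self] at this
  have l1 : Loc (X ∩ (Ep ∩ Em)) (A ∪ (Ap ∪ Am)) := hX.inter (hEp.inter hEm)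
  have l2 : Loc (X ∩ (Ep ∩ Em ∩ (Up ∩ Um))) (A ∪ ((Ap ∪ Am) ∪ (B ∪ B'))) :=
    hX.inter ((hEp.inter hEm).inter (hUp.inter hUm))
  rwa [hQ _ _ l1, hQ _ _ hUp, hQ _ _ hUm, hQ _ _ l2] at key

end TP
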