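import Pool.Agent.helper20.SP.PP23

/-!
# PP24: the two tracks from `y` to the outer annulus
-/

set_option autoImplicit false

namespace TP

open DP MeasureTheory

/-- The inner end of the arm `i` meets a set which hooks at the standard point. -/
theorem PP24_hook {c : V → Bool} {x : V} {L ℓ₃ : ℕ} {U : ℕ → Set V} {M : Set V}
    (h1 : 64 * L ≤ ℓ₃) (hU : Legs c x (32 * L) (32 * ℓ₃) U) {i : ℕ} (hi : i < 6)
    (hk : kol6 i = true) {A : V} (hA : A = zp6 x (32 * L) i) (hM : Hok M A L) :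
    (U i ∩ M).Nonempty := by
  obtain ⟨hC, p, hp, u, hu, hpm, hun, hsp, hsu⟩ := hU.2.2 i hi hk
  subst hA
  have hz : sd x (zp6 x (32 * L) i) = 32 * L := by
    unfold zp6 sd
    split_ifs <;> simp only [] <;> omega
  have hu' : sd x u = 32 * ℓ₃ := hun
  have ht := sd_triangle x (zp6 x (32 * L) i) u
  obtain ⟨a, ha, hb⟩ := hM (U i) p u (hC.2 p hp u hu) (by omega) (by omega)
  exact ⟨a, hb, ha⟩

theorem PP24_par {m₀ n₀ ℓ₁ ℓ S ℓ₃ : ℕ} (hP : ParC m₀ n₀ ℓ₁ ℓ S ℓ₃) :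
    16 * ℓ ≤ S * ℓ ∧ 256 * (S * ℓ) ≤ S ^ 3 * ℓ ∧ 64 * (S ^ 3 * ℓ) ≤ ℓ₃ ∧ 64 * ℓ₁ ≤ ℓ ∧ 16 ≤ ℓ₁ := by
  obtain ⟨a1, a2, a3, a4, a5, a6⟩ := hP
  have h3 : 16 * ℓ ≤ S * ℓ := Nat.mul_le_mul_right ℓ a4
  have h4 : 256 * (S * ℓ) ≤ S ^ 3 * ℓ := by
    have h5 : S ^ 3 * ℓ = (S * S) * (S * ℓ) := by ring
    rw [h5]
    refine Nat.mul_le_mul_right _ ?_
    nlinarith
  exact ⟨h3, h4, a5, a3, by omega⟩

theorem PP24_first (x : V) (ℓ S : ℕ) (e : Bool) :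
    ((zp6 (yc x ℓ S) (32 * ℓ) (if e = true then 1 else 0)), ℓ) ∈ (midY x ℓ S e).all := by
  have h : (((x.1 + 32 * S * ℓ + 32 * ℓ + (2 * 0 * ℓ : ℕ), x.2 + sge e * (16 * ℓ)) : V), ℓ) ∈
      (midY x ℓ S e).all := by
    unfold Wire.all
    refine List.mem_append.2 (Or.inl (List.mem_map.2 ⟨_, ?_, rfl⟩))
    unfold Wire.cel
    refine List.mem_flatMap.2 ⟨((x.1 + 32 * S * ℓ + 32 * ℓ, x.2 + sge e * (16 * ℓ)), 0,
      16 * S - 16), ?_, ?_⟩
    · exact List.mem_cons_of_mem _ (List.mem_cons_of_mem _ (List.mem_singleton.2 rfl))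
    · unfold scel
      refine List.mem_map.2 ⟨0, List.mem_range.2 (by simp only []; omega), ?_⟩
      rfl
  convert h using 2
  have h2 : (32 * ℓ) / 2 = 16 * ℓ := by omega
  cases e
  · simp only [zp6, sge, h2, yc]
    simp
    omega
  · simp only [zp6, sge, h2, yc]
    simp

theorem PP24_last (x : V) (ℓ S : ℕ) (e : Bool) :
    ((zp6 x (32 * (S ^ 3 * ℓ)) (if e = true then 1 else 0)), S ^ 3 * ℓ) ∈ (midY x ℓ S e).all := by
  have h : (((x.1 + 32 * S ^ 3 * ℓ, x.2 + sge e * (16 * S ^ 3 * ℓ)) : V), S ^ 3 * ℓ) ∈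
      (midY x ℓ S e).all := by
    unfold Wire.all
    exact List.mem_append.2 (Or.inr (List.mem_singleton.2 rfl))
  convert h using 2
  have h2 : (32 * (S ^ 3 * ℓ)) / 2 = 16 * (S ^ 3 * ℓ) := by omega
  cases e
  · simp only [zp6, sge, h2]
    simp
    constructor <;> ring
  · simp only [zp6, sge, h2]
    simp
    constructor <;> ring

theorem PP24_pr (h14 : PP14_stmt) {x : V} {m₀ n₀ ℓ₁ ℓ S ℓ₃ : ℕ} (hP : ParC m₀ n₀ ℓ₁ ℓ S ℓ₃)
    (e : Bool) : ∀ v ∈ regL (midY x ℓ S e).all,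
      (32 * (S * ℓ : ℕ) + 29 * ℓ < v.1 - x.1 ∧ v.1 - x.1 < 64 * (S * ℓ : ℕ) + 3 * ℓ ∧
        13 * ℓ < sge e * (v.2 - x.2) ∧ sge e * (v.2 - x.2) < 19 * ℓ) ∨
      (64 * (S * ℓ : ℕ) - 3 * ℓ < v.1 - x.1 ∧ v.1 - x.1 < 64 * (S * ℓ : ℕ) + 3 * ℓ ∧
        13 * ℓ < sge e * (v.2 - x.2) ∧ sge e * (v.2 - x.2) < 16 * (S ^ 3 * ℓ : ℕ) + 3 * ℓ) ∨
      (64 * (S * ℓ : ℕ) - 3 * ℓ < v.1 - x.1 ∧ v.1 - x.1 < 32 * (S ^ 3 * ℓ : ℕ) + 3 * ℓ ∧
        16 * (S ^ 3 * ℓ : ℕ) - 3 * ℓ < sge e * (v.2 - x.2) ∧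
        sge e * (v.2 - x.2) < 16 * (S ^ 3 * ℓ : ℕ) + 3 * ℓ) ∨
      (29 * (S ^ 3 * ℓ : ℕ) < v.1 - x.1 ∧ v.1 - x.1 < 35 * (S ^ 3 * ℓ : ℕ) ∧
        13 * (S ^ 3 * ℓ : ℕ) < sge e * (v.2 - x.2) ∧
        sge e * (v.2 - x.2) < 19 * (S ^ 3 * ℓ : ℕ)) := by
  obtain ⟨a1, a2, a3, a4, a5, a6⟩ := hP
  intro v hv
  have h := (h14 x ℓ S e (by omega) a4).2.2.2.1 v hv
  push_cast
  simp only [← mul_assoc]
  exact h

theorem PP24_sge (e : Bool) : sge e = 1 ∨ sge e = -1 := by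
  unfold sge; cases e <;> simp

theorem PP24_inO {x : V} {m₀ n₀ ℓ₁ ℓ S ℓ₃ : ℕ} (hP : ParC m₀ n₀ ℓ₁ ℓ S ℓ₃) (i : ℕ) :
    Rg x (32 * (S ^ 3 * ℓ)) (32 * ℓ₃) i ⊆ ann x (29 * ℓ₁) (280 * ℓ₃) := by
  rintro v ⟨⟨h1, h2⟩, -⟩
  obtain ⟨b1, b2, b3, b4, b5⟩ := PP24_par hP
  exact ⟨by omega, by omega⟩

theorem PP24_inM (h14 : PP14_stmt) {x : V} {m₀ n₀ ℓ₁ ℓ S ℓ₃ : ℕ}
    (hP : ParC m₀ n₀ ℓ₁ ℓ S ℓ₃) (e : Bool) :
    regL (midY x ℓ S e).all ⊆ ann x (29 * ℓ₁) (280 * ℓ₃) := by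
  intro v hv
  obtain ⟨b1, b2, b3, b4, b5⟩ := PP24_par hP
  have h := PP24_pr h14 hP e v hv
  generalize S * ℓ = T at *
  generalize S ^ 3 * ℓ = L at *
  constructor
  · unfold sd
    rcases PP24_sge e with hs | hs <;> rw [hs] at h <;> rcases h with h | h | h | h <;> omega
  · unfold sd
    rcases PP24_sge e with hs | hs <;> rw [hs] at h <;> rcases h with h | h | h | h <;> omega

/-- An arm of `y` and the other wire. -/
theorem PP24_dY (h14 : PP14_stmt) {x : V} {m₀ n₀ ℓ₁ ℓ S ℓ₃ : ℕ} (hP : ParC m₀ n₀ ℓ₁ ℓ S ℓ₃)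
    (e : Bool) : BDis (Rg (yc x ℓ S) (256 * ℓ₁) (32 * ℓ) (if e = true then 1 else 0))
      (regL (midY x ℓ S (!e)).all) := by
  intro v hv w hw h
  have hw' := PP24_pr h14 hP (!e) w hw
  obtain ⟨b1, b2, b3, b4, b5⟩ := PP24_par hP
  obtain ⟨d1, d2, d3⟩ := PP23_ne h
  obtain ⟨⟨h1, h2⟩, h3⟩ := hv
  have e1 := PP23_yc1 x ℓ S
  have e2 := PP23_yc2 x ℓ S
  generalize yc x ℓ S = y at *
  generalize S * ℓ = T at *
  generalize S ^ 3 * ℓ = L at *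
  cases e
  · have h4 := (h3 1 (by norm_num) (by unfold conf kol6; simp)).2
    have hs : sge (!false) = 1 := rfl
    rw [hs] at hw'
    simp only [zp6] at h4
    simp only [if_true, one_ne_zero, if_false] at h4
    unfold sd at h1 h2 h4
    simp only [] at h4
    rcases hw' with c | c | c | c <;> omega
  · have h4 := (h3 0 (by norm_num) (by unfold conf kol6; simp)).2
    have hs : sge (!true) = -1 := rfl
    rw [hs] at hw'
    simp only [zp6] at h4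
    simp only [if_true] at h4
    unfold sd at h1 h2 h4
    simp only [] at h4
    rcases hw' with c | c | c | c <;> omega

/-- An arm of the outer annulus and the other wire. -/
theorem PP24_dO (h14 : PP14_stmt) {x : V} {m₀ n₀ ℓ₁ ℓ S ℓ₃ : ℕ} (hP : ParC m₀ n₀ ℓ₁ ℓ S ℓ₃)
    (e : Bool) : BDis (Rg x (32 * (S ^ 3 * ℓ)) (32 * ℓ₃) (if e = true then 1 else 0))
      (regL (midY x ℓ S (!e)).all) := by
  intro v hv w hw h
  have hw' := PP24_pr h14 hP (!e) w hw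
  obtain ⟨b1, b2, b3, b4, b5⟩ := PP24_par hP
  obtain ⟨d1, d2, d3⟩ := PP23_ne h
  obtain ⟨⟨h1, h2⟩, h3⟩ := hv
  generalize S * ℓ = T at *
  generalize S ^ 3 * ℓ = L at *
  cases e
  · have h4 := (h3 1 (by norm_num) (by unfold conf kol6; simp)).1
    have hs : sge (!false) = 1 := rfl
    rw [hs] at hw'
    simp only [zp6] at h4
    simp only [if_true, one_ne_zero, if_false] at h4
    unfold sd at h1 h2 h4
    simp only [] at h4
    rcases hw' with c | c | c | c <;> omega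
  · have h4 := (h3 0 (by norm_num) (by unfold conf kol6; simp)).1
    have hs : sge (!true) = -1 := rfl
    rw [hs] at hw'
    simp only [zp6] at h4
    simp only [if_true] at h4
    unfold sd at h1 h2 h4
    simp only [] at h4
    rcases hw' with c | c | c | c <;> omega

/-- Arms of `y` and of the outer annulus. -/
theorem PP24_dYO {x : V} {m₀ n₀ ℓ₁ ℓ S ℓ₃ : ℕ} (hP : ParC m₀ n₀ ℓ₁ ℓ S ℓ₃)
    (i j : ℕ) : BDis (Rg (yc x ℓ S) (256 * ℓ₁) (32 * ℓ) i) (Rg x (32 * (S ^ 3 * ℓ)) (32 * ℓ₃) j) := by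
  refine BDis.of_sd ?_
  rintro v ⟨⟨h1, h2⟩, -⟩ w ⟨⟨h3, h4⟩, -⟩
  obtain ⟨b1, b2, b3, b4, b5⟩ := PP24_par hP
  have e1 := PP23_yc1 x ℓ S
  have e2 := PP23_yc2 x ℓ S
  generalize yc x ℓ S = y at *
  generalize S * ℓ = T at *
  generalize S ^ 3 * ℓ = L at *
  unfold sd at h1 h2 h3 h4 ⊢
  omega

/-- The two wires. -/
theorem PP24_dMM (h14 : PP14_stmt) {x : V} {m₀ n₀ ℓ₁ ℓ S ℓ₃ : ℕ} (hP : ParC m₀ n₀ ℓ₁ ℓ S ℓ₃) :
    BDis (regL (midY x ℓ S true).all) (regL (midY x ℓ S false).all) := by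
  intro v hv w hw h
  have c := PP24_pr h14 hP true v hv
  have c' := PP24_pr h14 hP false w hw
  obtain ⟨b1, b2, b3, b4, b5⟩ := PP24_par hP
  obtain ⟨d1, d2, d3⟩ := PP23_ne h
  have hs : sge true = 1 := rfl
  have hs' : sge false = -1 := rfl
  rw [hs] at c
  rw [hs'] at c'
  generalize S * ℓ = T at *
  generalize S ^ 3 * ℓ = L at *
  have f1 : 0 < v.2 - x.2 := by rcases c with c | c | c | c <;> omega
  have f2 : w.2 - x.2 < 0 := by rcases c' with c | c | c | c <;> omega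
  omega

theorem PP24 (h14 : PP14_stmt) : PP24_stmt := by
  intro c x m₀ n₀ ℓ₁ ℓ S ℓ₃ Uy Uo M hP hUy hUo hM
  obtain ⟨b1, b2, b3, b4, b5⟩ := PP24_par hP
  have kx : ∀ e : Bool, (if e = true then 1 else 0) < 6 ∧
      kol6 (if e = true then 1 else 0) = true := by
    intro e; cases e <;> exact ⟨by decide, by decide⟩
  have hUy' : ∀ e : Bool, CnS c true
      (Rg (yc x ℓ S) (256 * ℓ₁) (32 * ℓ) (if e = true then 1 else 0))
      (Uy (if e = true then 1 else 0)) := fun e => (hUy.2.2 _ (kx e).1 (kx e).2).1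
  have hUo' : ∀ e : Bool, CnS c true
      (Rg x (32 * (S ^ 3 * ℓ)) (32 * ℓ₃) (if e = true then 1 else 0))
      (Uo (if e = true then 1 else 0)) := fun e => (hUo.2.2 _ (kx e).1 (kx e).2).1
  have sy : ∀ e : Bool, Uy (if e = true then 1 else 0) ⊆
      Rg (yc x ℓ S) (256 * ℓ₁) (32 * ℓ) (if e = true then 1 else 0) :=
    fun e v hv => ((hUy' e).1 v hv).1
  have so : ∀ e : Bool, Uo (if e = true then 1 else 0) ⊆
      Rg x (32 * (S ^ 3 * ℓ)) (32 * ℓ₃) (if e = true then 1 else 0) :=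
    fun e v hv => ((hUo' e).1 v hv).1
  have sm : ∀ e : Bool, M e ⊆ regL (midY x ℓ S e).all := fun e v hv => ((hM e).1.1 v hv).1
  have ny : ∀ e : Bool, (Uy (if e = true then 1 else 0) ∩ M e).Nonempty := fun e =>
    PP23_hook b4 hUy (kx e).1 (kx e).2 rfl ((hM e).2 _ (PP24_first x ℓ S e))
  have no : ∀ e : Bool, (Uo (if e = true then 1 else 0) ∩ M e).Nonempty := fun e =>
    PP24_hook b3 hUo (kx e).1 (kx e).2 rfl ((hM e).2 _ (PP24_last x ℓ S e))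
  refine ⟨fun e => (Uy (if e = true then 1 else 0) ∪ M e) ∪ Uo (if e = true then 1 else 0),
    ?_, fun e => ⟨?_, ?_, ?_⟩⟩
  · have dym : ∀ e : Bool, BDis (Uy (if e = true then 1 else 0)) (M (!e)) := fun e =>
      (PP24_dY h14 hP e).mono (sy e) (sm (!e))
    have dom : ∀ e : Bool, BDis (Uo (if e = true then 1 else 0)) (M (!e)) := fun e =>
      (PP24_dO h14 hP e).mono (so e) (sm (!e))
    have dmm : BDis (M true) (M false) := (PP24_dMM h14 hP).mono (sm true) (sm false)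
    have dyo : ∀ e e' : Bool, BDis (Uy (if e = true then 1 else 0))
        (Uo (if e' = true then 1 else 0)) := fun e e' => (PP24_dYO hP _ _).mono (sy e) (so e')
    have dyy : BDis (Uy 1) (Uy 0) := hUy.1.symm
    have doo : BDis (Uo 1) (Uo 0) := hUo.1.symm
    rintro v ((hv | hv) | hv) w ((hw | hw) | hw)
    · exact dyy v hv w hw
    · exact dym true v hv w hw
    · exact dyo true false v hv w hw
    · exact (dym false).symm v hv w hw
    · exact dmm v hv w hw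
    · exact (dom false).symm v hv w hw
    · exact (dyo false true).symm v hv w hw
    · exact dom true v hv w hw
    · exact doo v hv w hw
  · refine PP23_union (PP23_union (PP23_mono (hUy' e) (PP23_inY hP _))
      (PP23_mono (hM e).1 (PP24_inM h14 hP e)) (ny e)) (PP23_mono (hUo' e) (PP24_inO hP _)) ?_
    obtain ⟨a, h1, h2⟩ := no e
    exact ⟨a, Or.inr h2, h1⟩
  · exact fun v hv => Or.inl (Or.inl hv)
  · exact fun v hv => Or.inr hv

end TP
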