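import Pool.Agent.helper3.SP.SpecPP

/-!
# Project sp, module PP27: the black arms through the whole block
-/

set_option autoImplicit false

namespace TP

open DP MeasureTheory

theorem PP27_zpt (x : V) (n l : ℕ) : sd x (zpt x n l) = n := by
  unfold zpt sd
  split_ifs <;> simp

theorem PP27_opp {x v : V} {n A : ℕ} {k : Bool} (h : sd x v + A < n) : v ∉ opp 4 (zpt x n) A k := by
  rintro ⟨l, -, -, h1⟩
  have h2 := sd_triangle x v (zpt x n l)
  rw [PP27_zpt, sd_comm v] at h2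
  omega

theorem PP27_opp' {x v : V} {n A : ℕ} {k : Bool} (h : n + A < sd x v) : v ∉ opp 4 (zpt x n) A k := by
  rintro ⟨l, -, -, h1⟩
  have h2 := sd_triangle x (zpt x n l) v
  rw [PP27_zpt] at h2
  omega

/-- A connection inside its own cluster. -/
theorem PP27_self {W : Set V} {u v : V} (h : Con W u v) : Con {z | Con W u z} u v := by
  refine h.induct (fun z => Con {z | Con W u z} u z) (DP.Con.refl (DP.Con.refl h.mem_left)) ?_
  intro a b _ hb hab hua ih
  exact ih.tail hab (hua.tail hab hb)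

/-- Use of a hook. -/
theorem PP27_hook {U W : Set V} {A : V} {r : ℕ} (h : Hok U A r) {u v : V} (hc : Con W u v)
    (hu : sd A u ≤ r) (hv : 3 * r ≤ sd A v) : ∃ z ∈ U, Con W u z := by
  obtain ⟨z, hz1, hz2⟩ := h _ u v (PP27_self hc) hu hv
  exact ⟨z, hz1, hz2⟩

theorem PP27_rc {c : V → Bool} {w v : V} (h : 2 ≤ sd v w) : rc c w false v = c v :=
  if_neg (br_ne h)

theorem PP27 (h26 : PP26_stmt) : PP27_stmt := by
  intro c x w m₀ n₀ ℓ₁ ℓ S ℓ₃ hP hA hL hw hWS
  obtain ⟨K₁, K₂, K₃, ⟨hK1, hK1a, hK1b⟩, ⟨hK2, hK2a, hK2b⟩, ⟨hK3, hK3a, hK3b⟩⟩ :=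
    h26 c x m₀ n₀ ℓ₁ ℓ S ℓ₃ hP hA hL w hw hWS
  obtain ⟨hin, hcore, -, -, -, hout⟩ := hA
  obtain ⟨p1, p2, p3, p4, p5, p6⟩ := hP
  obtain ⟨w1, w2, w3⟩ := hWS
  have t1 : 16 * ℓ ≤ S * ℓ := Nat.mul_le_mul_right _ p4
  have t2 : S * ℓ ≤ S ^ 3 * ℓ := by
    refine Nat.mul_le_mul_right _ ?_
    calc S = S ^ 1 := (pow_one S).symm
      _ ≤ S ^ 3 := Nat.pow_le_pow_right (by omega) (by norm_num)
  have hy : sd x (yc x ℓ S) = 32 * (S * ℓ) := by
    unfold yc sd
    simp only [sub_self, Int.natAbs_zero]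
    have : x.1 - (x.1 + 32 * (S : ℤ) * ℓ) = -((32 * (S * ℓ) : ℕ) : ℤ) := by push_cast; ring
    rw [this, Int.natAbs_neg, Int.natAbs_natCast]
    omega
  set y := yc x ℓ S with hydef
  set L := S ^ 3 * ℓ with hLdef
  set T := S * ℓ with hTdef
  set c' := rc c w false with hc'
  set G : Set V := HS true x n₀ \ ((Dmark 4 x m₀).N true ∪ opp 4 (zpt x n₀) (n₀ / 8) true) with hG
  have hbox : ∀ n, HS true x n = box x n := fun n => if_pos rfl
  -- the regions
  have hmid : ∀ v, 29 * ℓ₁ ≤ sd x v → sd x v ≤ 280 * ℓ₃ → v ∈ G := by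
    intro v h1 h2
    refine ⟨?_, ?_⟩
    · rw [hbox]
      show sd x v ≤ n₀
      omega
    · rintro ((h3 | h3) | h3)
      · have h4 : sd x v < m₀ := h3
        omega
      · exact PP27_opp' (by omega) h3
      · exact PP27_opp (by omega) h3
  have hinG : HS true x (32 * ℓ₁) \
      ((Dmark 4 x m₀).N true ∪ opp 4 (zpt x (32 * ℓ₁)) (32 * ℓ₁ / 8) true) ⊆ G := by
    rintro v ⟨h1, h2⟩
    rw [hbox] at h1
    have h1' : sd x v ≤ 32 * ℓ₁ := h1
    refine ⟨?_, ?_⟩
    · rw [hbox]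
      show sd x v ≤ n₀
      omega
    · rintro (h3 | h3)
      · exact h2 (Or.inl h3)
      · exact PP27_opp (by omega) h3
  have houtG : HS true x n₀ \
      ((Dmark 4 x (256 * ℓ₃)).N true ∪ opp 4 (zpt x n₀) (n₀ / 8) true) ⊆ G := by
    rintro v ⟨h1, h2⟩
    have h5 : 256 * ℓ₃ ≤ sd x v := by
      by_contra h6
      exact h2 (Or.inl (Or.inl (show sd x v < 256 * ℓ₃ by omega)))
    refine ⟨h1, ?_⟩
    rintro ((h3 | h3) | h3)
    · have h4 : sd x v < m₀ := h3
      omega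
    · exact PP27_opp' (by omega) h3
    · exact h2 (Or.inr h3)
  -- the sets `K`
  have hKG : ∀ K : Set V, CnS c' true (ann x (29 * ℓ₁) (280 * ℓ₃)) K → ∀ z ∈ K, ∀ z' ∈ K,
      Conn c' true G z z' := by
    rintro K ⟨h1, h2⟩ z hz z' hz'
    refine (h2 z hz z' hz').mono ?_
    intro v hv
    obtain ⟨⟨h3, h4⟩, h5⟩ := h1 v hv
    exact ⟨hmid v h3 h4, h5⟩
  -- colours
  have hcin : ∀ v, sd x v ≤ 32 * ℓ₁ → c' v = c v := by
    intro v hv
    refine PP27_rc ?_
    have := sd_triangle x v w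
    omega
  have hcy : ∀ v, sd y v ≤ 32 * ℓ₁ → c' v = c v := by
    intro v hv
    refine PP27_rc ?_
    have := sd_triangle y v w
    omega
  have hcout : ∀ v, 256 * ℓ₃ ≤ sd x v → c' v = c v := by
    intro v hv
    refine PP27_rc ?_
    have := sd_triangle x w v
    rw [sd_comm w v] at this
    omega
  -- the core joins `K₁` and `K₃`
  have hjoin : ∀ z ∈ K₁, ∀ z' ∈ K₃, Conn c' true G z z' := by
    obtain ⟨p, hp, u, hu, hp1, hu1, hcon⟩ := hcore
    have hcon' : Conn c' true G p u := by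
      refine Conn.mono ?_ ((Conn.congr ?_).1 hcon)
      · rintro v ⟨hv, -⟩
        have hv' : sd y v ≤ 32 * ℓ₁ := hv
        have h3 := sd_triangle x v y
        have h4 := sd_triangle x y v
        rw [sd_comm v y] at h3
        exact hmid v (by omega) (by omega)
      · rintro v ⟨hv, -⟩
        exact (hcy v hv).symm
    have h5 : sd (zpt y (32 * ℓ₁) 0) (zpt y (32 * ℓ₁) 2) = 64 * ℓ₁ := by
      unfold zpt sd
      simp
      omega
    have hp2 : sd y p = 32 * ℓ₁ := hp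
    have hu2 : sd y u = 32 * ℓ₁ := hu
    obtain ⟨z1, hz1, hz1'⟩ := PP27_hook hK1b hcon'.symm (by omega)
      (by
        have h6 := sd_triangle (zpt y (32 * ℓ₁) 0) p (zpt y (32 * ℓ₁) 2)
        rw [sd_comm p] at h6
        omega)
    obtain ⟨z3, hz3, hz3'⟩ := PP27_hook hK3a hcon' (by omega)
      (by
        have h6 := sd_triangle (zpt y (32 * ℓ₁) 0) u (zpt y (32 * ℓ₁) 2)
        rw [sd_comm u] at h6
        omega)
    intro z hz z' hz'
    have e1 : Conn c' true G z z1 := hKG K₁ hK1 z hz z1 hz1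
    have e2 : Conn c' true G z1 u := DP.Con.symm hz1'
    have e3 : Conn c' true G u p := hcon'.symm
    have e4 : Conn c' true G p z3 := hz3'
    have e5 : Conn c' true G z3 z' := hKG K₃ hK3 z3 hz3 z' hz'
    exact (((e1.trans e2).trans e3).trans e4).trans e5
  -- composition of an inner and an outer arm
  have hcomp : ∀ i j k : ℕ, j = 0 ∨ j = 2 →
      (∃ p ∈ (Dmark 4 x m₀).I i, ∃ u ∈ bd x (32 * ℓ₁), sd (zpt x (32 * ℓ₁) j) u ≤ 32 * ℓ₁ / 64 ∧
        Conn c true (HS true x (32 * ℓ₁) \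
          ((Dmark 4 x m₀).N true ∪ opp 4 (zpt x (32 * ℓ₁)) (32 * ℓ₁ / 8) true)) p u) →
      (∃ p ∈ (Dmark 4 x (256 * ℓ₃)).I j, ∃ u ∈ bd x n₀, sd (zpt x n₀ k) u ≤ n₀ / 64 ∧
        Conn c true (HS true x n₀ \
          ((Dmark 4 x (256 * ℓ₃)).N true ∪ opp 4 (zpt x n₀) (n₀ / 8) true)) p u) →
      ∃ p ∈ (Dmark 4 x m₀).I i, ∃ u ∈ bd x n₀, sd (zpt x n₀ k) u ≤ n₀ / 64 ∧
        Conn c' true G p u := by
    rintro i j k hj ⟨p, hp, u, hu, hu1, hc1⟩ ⟨p', hp', u', hu', hu1', hc2⟩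
    refine ⟨p, hp, u', hu', hu1', ?_⟩
    have hp1 : sd x p = m₀ := hp.1
    have hu2 : sd x u = 32 * ℓ₁ := hu
    have hp1' : sd x p' = 256 * ℓ₃ := hp'.1
    have hp2' : sd (zpt x (256 * ℓ₃) j) p' ≤ 256 * ℓ₃ / 64 := hp'.2
    have hu2' : sd x u' = n₀ := hu'
    have e1 : Conn c' true G p u := by
      refine Conn.mono hinG ((Conn.congr ?_).1 hc1)
      rintro v ⟨hv, -⟩
      rw [hbox] at hv
      exact (hcin v hv).symm
    have e2 : Conn c' true G p' u' := by
      refine Conn.mono houtG ((Conn.congr ?_).1 hc2)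
      rintro v ⟨hv, hv2⟩
      refine (hcout v ?_).symm
      by_contra h6
      exact hv2 (Or.inl (Or.inl (show sd x v < 256 * ℓ₃ by omega)))
    have f1 : 3 * ℓ₁ ≤ sd (zpt x (32 * ℓ₁) j) p := by
      have h6 := sd_triangle x p (zpt x (32 * ℓ₁) j)
      rw [PP27_zpt, sd_comm p] at h6
      omega
    have f2 : 3 * (8 * ℓ₃) ≤ sd (zpt x (256 * ℓ₃) j) u' := by
      have h6 := sd_triangle x (zpt x (256 * ℓ₃) j) u'
      rw [PP27_zpt] at h6
      omega
    rcases hj with rfl | rfl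
    · obtain ⟨z, hz, hz'⟩ := PP27_hook hK1a e1.symm (by omega) f1
      obtain ⟨z2, hz2, hz2'⟩ := PP27_hook hK3b e2 (by omega) f2
      have g1 : Conn c' true G u z := hz'
      have g2 : Conn c' true G z z2 := hjoin z hz z2 hz2
      have g3 : Conn c' true G z2 p' := DP.Con.symm hz2'
      exact (((e1.trans g1).trans g2).trans g3).trans e2
    · obtain ⟨z, hz, hz'⟩ := PP27_hook hK2a e1.symm (by omega) f1
      obtain ⟨z2, hz2, hz2'⟩ := PP27_hook hK2b e2 (by omega) f2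
      have g1 : Conn c' true G u z := hz'
      have g2 : Conn c' true G z z2 := hKG K₂ hK2 z hz z2 hz2
      have g3 : Conn c' true G z2 p' := DP.Con.symm hz2'
      exact (((e1.trans g1).trans g2).trans g3).trans e2
  have hk : ∀ i < 4, kol i = true → i = 0 ∨ i = 2 := by
    intro i hi hki
    have : i % 2 = 0 := by simpa [kol] using hki
    omega
  have hk' : ∀ i, (i = 0 ∨ i = 2) → kol i = true := by
    rintro i (rfl | rfl) <;> rfl
  show MrkC c' 4 true x n₀ (Dmark 4 x m₀) (zpt x n₀) (n₀ / 64) (n₀ / 8) true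
  rcases hin with hin | hin <;> rcases hout with hout | hout
  · left
    intro i hi hki
    have hj := hk i hi hki
    exact hcomp i i i hj (hin i hi hki) (hout i hi hki)
  · right
    intro i hi hki
    have hj := hk i hi hki
    exact hcomp i i _ hj (hin i hi hki) (hout i hi hki)
  · right
    intro i hi hki
    have hj : (i + 2) % 4 = 0 ∨ (i + 2) % 4 = 2 := by
      have := hk i hi hki
      omega
    exact hcomp i ((i + 2) % 4) ((i + 2) % 4) hj (hin i hi hki)
      (hout _ (by omega) (hk' _ hj))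
  · left
    intro i hi hki
    have hi' := hk i hi hki
    have hj : (i + 2) % 4 = 0 ∨ (i + 2) % 4 = 2 := by omega
    have h7 := hout ((i + 2) % 4) (by omega) (hk' _ hj)
    have h8 : ((i + 2) % 4 + 2) % 4 = i := by omega
    rw [h8] at h7
    exact hcomp i ((i + 2) % 4) i hj (hin i hi hki) h7

end TP
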