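import Pool.Agent.helper2.SP.SpecTA
import Pool.Agent.helper33.DP.CG

/-!
# Project sp, module TA18: nets of ends
-/

set_option autoImplicit false

namespace TP.TA

open DP MeasureTheory

/-- Distance and lifted positions. -/
theorem TA18_lift {x : V} {n : ℕ} (hn : 1 ≤ n) {u v : V} (hu : u ∈ bd x n) (hv : v ∈ bd x n)
    {L L' k k' : ℤ} (hL : L = pos x n u + 8 * n * k) (hL' : L' = pos x n v + 8 * n * k') :
    (sd u v : ℤ) ≤ |L - L'| := by
  obtain ⟨h1, h2, -⟩ := CG2 x n hn u hu v hv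
  have hN : (1 : ℤ) ≤ n := by exact_mod_cast hn
  have e : L - L' = (pos x n u - pos x n v) + 8 * n * (k - k') := by
    rw [hL, hL']; ring
  rw [e]
  rcases lt_trichotomy (k - k') 0 with h | h | h
  · have h3 : 8 * (n : ℤ) * (k - k') ≤ -(8 * n) := by nlinarith
    rcases abs_cases (pos x n u - pos x n v) with h' | h' <;>
      rcases abs_cases ((pos x n u - pos x n v) + 8 * n * (k - k')) with h'' | h'' <;> omega
  · rw [h]; simpa using h1
  · have h3 : 8 * (n : ℤ) ≤ 8 * n * (k - k') := by nlinarith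
    rcases abs_cases (pos x n u - pos x n v) with h' | h' <;>
      rcases abs_cases ((pos x n u - pos x n v) + 8 * n * (k - k')) with h'' | h'' <;> omega

/-- The net: points with positions `j a` modulo `8 n`. -/
theorem TA18_net (x : V) (n a K : ℕ) (hn : 1 ≤ n) (ha : 1 ≤ a) (hK : K * a = 8 * n) :
    ∃ τ : Fin K → V, ∀ t, τ t ∈ bd x n ∧ ∃ k : ℤ, ((t : ℕ) : ℤ) * a = pos x n (τ t) + 8 * n * k := by
  obtain ⟨-, -, h3⟩ := CG1 x n hn
  have hK' : (K : ℤ) * a = 8 * n := by exact_mod_cast hK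
  have ha' : (1 : ℤ) ≤ a := by exact_mod_cast ha
  have hn' : (1 : ℤ) ≤ n := by exact_mod_cast hn
  have hex : ∀ t : Fin K, ∃ u : V, u ∈ bd x n ∧ ∃ k : ℤ, ((t : ℕ) : ℤ) * a = pos x n u + 8 * n * k := by
    intro t
    by_cases h0 : (t : ℕ) = 0
    · obtain ⟨u, hu, hp⟩ := h3 (8 * n) (by omega) le_rfl
      refine ⟨u, hu, -1, ?_⟩
      rw [h0, hp]
      push_cast
      ring
    · have ht1 : (1 : ℤ) ≤ ((t : ℕ) : ℤ) := by exact_mod_cast Nat.one_le_iff_ne_zero.2 h0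
      have ht2 : ((t : ℕ) : ℤ) ≤ K := by exact_mod_cast t.2.le
      obtain ⟨u, hu, hp⟩ := h3 (((t : ℕ) : ℤ) * a) (by positivity) (by nlinarith)
      refine ⟨u, hu, 0, ?_⟩
      rw [hp]
      ring
  choose τ hτ using hex
  exact ⟨τ, hτ⟩

theorem TA18 : TA18_stmt := by
  intro η
  refine ⟨(2 ^ (η + 3)) ^ 6, ?_⟩
  intro x i e hη
  set K : ℕ := 2 ^ (η + 3) with hKdef
  set a : ℕ := 2 ^ (i - η) with hadef
  set n : ℕ := 2 ^ i with hndef
  have hn : 1 ≤ n := Nat.one_le_two_pow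
  have ha : 1 ≤ a := Nat.one_le_two_pow
  have hK1 : 1 ≤ K := Nat.one_le_two_pow
  have hK : K * a = 8 * n := by
    rw [hKdef, hadef, hndef, ← pow_add, show η + 3 + (i - η) = 3 + i by omega, pow_add]
    norm_num
  have hK' : (K : ℤ) * a = 8 * n := by exact_mod_cast hK
  have ha' : (1 : ℤ) ≤ a := by exact_mod_cast ha
  have hKp : (0 : ℤ) < K := by exact_mod_cast hK1
  obtain ⟨τ, hτ⟩ := TA18_net x n a K hn ha hK
  obtain ⟨F, hF⟩ : ∃ F : ℕ → Sp6, ∀ (k : ℕ) (h : k < K ^ 6), F k = ⟨n, fun l => if hl : l < 6 then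
      τ (finFunctionFinEquiv.symm ⟨k, h⟩ ⟨l, hl⟩) else x, a, 2 ^ (i - e)⟩ :=
    ⟨fun k => if h : k < K ^ 6 then ⟨n, fun l => if hl : l < 6 then
      τ (finFunctionFinEquiv.symm ⟨k, h⟩ ⟨l, hl⟩) else x, a, 2 ^ (i - e)⟩ else ⟨n, fun _ => x, a, 0⟩,
      fun k h => by simp only [dif_pos h]⟩
  refine ⟨F, ?_⟩
  intro y hy hC hs
  obtain ⟨L, hL, hL5, hL0⟩ := hC
  -- indices
  have hidx : ∀ l : Fin 6, (L l / (a : ℤ)) % K < K := fun l => Int.emod_lt_of_pos _ hKp
  have hidx0 : ∀ l : Fin 6, 0 ≤ (L l / (a : ℤ)) % K := fun l => Int.emod_nonneg _ hKp.ne'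
  set g : Fin 6 → Fin K := fun l => ⟨((L l / (a : ℤ)) % K).toNat, by
    have h1 := hidx l
    have h2 := hidx0 l
    omega⟩ with hg
  have hgl : ∀ l : Fin 6, (((g l : Fin K) : ℕ) : ℤ) = (L l / (a : ℤ)) % K := fun l =>
    Int.toNat_of_nonneg (hidx0 l)
  refine ⟨(finFunctionFinEquiv g : ℕ), (finFunctionFinEquiv g).2, ?_⟩
  have hlt : (finFunctionFinEquiv g : ℕ) < K ^ 6 := (finFunctionFinEquiv g).2
  rw [hF _ hlt]
  -- the rounded positions
  set L' : ℕ → ℤ := fun l => (a : ℤ) * (L l / a) with hL'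
  have hr : ∀ l, L' l ≤ L l ∧ L l < L' l + a := by
    intro l
    have h5 := Int.mul_ediv_add_emod (L l) (a : ℤ)
    have h6 := Int.emod_nonneg (L l) (show (a : ℤ) ≠ 0 by omega)
    have h7 := Int.emod_lt_of_pos (L l) (show 0 < (a : ℤ) by omega)
    simp only [hL']
    omega
  -- points
  set z : ℕ → V := fun l => if hl : l < 6 then
    τ (finFunctionFinEquiv.symm ⟨(finFunctionFinEquiv g : ℕ), hlt⟩ ⟨l, hl⟩) else x with hz
  have hzl : ∀ l (hl : l < 6), z l = τ (g ⟨l, hl⟩) := by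
    intro l hl
    simp only [hz, dif_pos hl]
    have : finFunctionFinEquiv.symm (⟨(finFunctionFinEquiv g : ℕ), hlt⟩ : Fin (K ^ 6)) = g := by
      have h1 : (⟨(finFunctionFinEquiv g : ℕ), hlt⟩ : Fin (K ^ 6)) = finFunctionFinEquiv g := rfl
      rw [h1, Equiv.symm_apply_apply]
    rw [this]
  have hzb : ∀ l < 6, z l ∈ bd x n := by
    intro l hl
    rw [hzl l hl]
    exact (hτ _).1
  have hzL : ∀ l < 6, ∃ k : ℤ, L' l = pos x n (z l) + 8 * n * k := by
    intro l hl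
    obtain ⟨k, hk⟩ := (hτ (g ⟨l, hl⟩)).2
    rw [← hzl l hl, hgl] at hk
    have hdm := Int.mul_ediv_add_emod (L l / (a : ℤ)) (K : ℤ)
    refine ⟨k + (L l / (a : ℤ)) / K, ?_⟩
    have e1 : L' l = (K * (L l / (a : ℤ) / K) + (L l / (a : ℤ)) % K) * a := by
      rw [hdm]
      simp only [hL']
      ring
    rw [e1]
    have e2 : (K * (L l / (a : ℤ) / K) + (L l / (a : ℤ)) % K) * (a : ℤ)
        = (K * a) * (L l / (a : ℤ) / K) + ((L l / (a : ℤ)) % K) * a := by ring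
    rw [e2, hK']
    have e3 : (L l / (a : ℤ)) % K * a = pos x n (z l) + 8 * n * k := hk
    rw [e3]
    ring
  -- distances of the lifted positions
  have hsep : ∀ l < 6, ∀ l' < 6, l ≠ l' → ∀ m : ℤ, 2 * (a : ℤ) ≤ |L l - (L l' + 8 * n * m)| := by
    intro l hl l' hl' hne m
    obtain ⟨k, hk⟩ := hL l hl
    obtain ⟨k', hk'⟩ := hL l' hl'
    have h1 := TA18_lift hn (hy l hl) (hy l' hl') hk
      (show L l' + 8 * n * m = pos x n (y l') + 8 * n * (k' + m) by rw [hk']; ring)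
    have h2 := hs l hl l' hl' hne
    have h3 : (2 * (a : ℤ)) ≤ (sd (y l) (y l') : ℤ) := by exact_mod_cast h2
    exact h3.trans h1
  refine ⟨rfl, rfl, rfl, hzb, ⟨L', hzL, ?_, ?_⟩, ?_⟩
  · intro l hl
    have h1 := hsep (l + 1) (by omega) l (by omega) (by omega) 0
    have h2 := hL5 l hl
    rw [mul_zero, add_zero, abs_of_pos (by omega)] at h1
    have h3 := hr l
    have h4 := hr (l + 1)
    omega
  · have h1 := hsep 0 (by omega) 5 (by omega) (by omega) (-1)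
    rw [show L 0 - (L 5 + 8 * n * (-1)) = L 0 + 8 * n - L 5 by ring, abs_of_pos (by omega)] at h1
    have h3 := hr 0
    have h4 := hr 5
    omega
  · intro l hl
    obtain ⟨k, hk⟩ := hzL l hl
    obtain ⟨k', hk'⟩ := hL l hl
    have h1 := TA18_lift hn (hzb l hl) (hy l hl) hk hk'
    have h2 := hr l
    have h3 : |L' l - L l| ≤ a := by
      rw [abs_le]
      constructor <;> omega
    have h4 := h1.trans h3
    exact_mod_cast h4

end TP.TA
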